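import Pool.Agent.Lib.MP_d2a91d_an.Adj2
import Pool.Agent.Lib.MP_d2a91d_an.U1_79
import Pool.Agent.Lib.MP_d2a91d_an.U2s_42
import Pool.Agent.Lib.MP_d2a91d_an.U5_42

/-!
A lower bound for the dimension of trivariate spline spaces with a term for every pair of
interior edges that lie in a common triangle.
-/

namespace Pool.Agent.Results.MP_d2a91d_an.AdjacencyBound

open Pool.Agent.Lib.MP_d2a91d_an

/-- Let `K` be a tetrahedral partition (with the regularity conditions `Nice`) and `P` a set of
pairs of interior edges, each pair in a common triangle of `K`; if two different pairs of `P` lie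
in the same triangle, the first edge of each of them is not in the other. Let `k = d + r + 1`.
Then the dimension of `S_k^r` is, at every realisation of `K`, at least
`C(k + 3, 3) + (number of interior triangles) * C(d + 3, 3) - ∑ lam (deg e)
  + ∑ mu (deg e) (deg e')`, the first sum over the interior edges `e`, the second one over the
pairs `(e, e')` in `P`. The same holds for the generic dimension. -/
theorem result {N : ℕ} (K : Finset (Finset (Fin N)))
    (cyc : Finset (Fin N) → ℕ → Finset (Fin N)) (hne : K.Nonempty) (hK : Nice K cyc)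
    (P : Finset (Finset (Fin N) × Finset (Fin N)))
    (hP : ∀ x ∈ P, x.1 ∈ interiorFaces K 2 ∧ x.2 ∈ interiorFaces K 2 ∧ x.1 ≠ x.2 ∧
      x.1 ∪ x.2 ∈ faces K 3)
    (hP' : ∀ x ∈ P, ∀ y ∈ P, x ≠ y → x.1 ∪ x.2 = y.1 ∪ y.2 → x.1 ≠ y.1 ∧ x.1 ≠ y.2)
    (r d : ℕ) :
    (∀ p, Realises K p →
      (d + r + 4).choose 3 + (interiorFaces K 3).card * (d + 3).choose 3 +
        ∑ x ∈ P, mu (degree K x.1) (degree K x.2) r d ≤
      Module.finrank ℝ (Spline r (d + r + 1) K p) +
        ∑ e ∈ interiorFaces K 2, lam (degree K e) r d) ∧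
    ((∃ p, Realises K p) →
      (d + r + 4).choose 3 + (interiorFaces K 3).card * (d + 3).choose 3 +
        ∑ x ∈ P, mu (degree K x.1) (degree K x.2) r d ≤
      genDim r (d + r + 1) K + ∑ e ∈ interiorFaces K 2, lam (degree K e) r d) :=
  ⟨fun _ hp => pos_pairs U79.stU1_79 U2_42.stU2_42 U5_42.stU5_42 hne hK P hP hP' r d hp,
    gen_pairs U79.stU1_79 U2_42.stU2_42 U5_42.stU5_42 hne hK P hP hP' r d⟩

end Pool.Agent.Results.MP_d2a91d_an.AdjacencyBound
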