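import Pool.Agent.Lib.MP_d2a91d_an.DefsLocal
import Pool.Agent.Lib.MP_d2a91d_an.Loc6
import Pool.Agent.Lib.MP_d2a91d_an.K_79
import Pool.Agent.Lib.MP_d2a91d_an.K3_79
import Pool.Agent.Lib.MP_d2a91d_an.TL_42
import Pool.Agent.Lib.MP_d2a91d_an.F_83
import Pool.Agent.Lib.MP_d2a91d_an.F3_83
import Pool.Agent.Lib.MP_d2a91d_an.R1_42
import Pool.Agent.Lib.MP_d2a91d_an.LP_95
import Pool.Agent.Lib.MP_d2a91d_an.X_83
import Pool.Agent.Lib.MP_d2a91d_an.U4as_32
import Pool.Agent.Lib.MP_d2a91d_an.U4b_83
import Pool.Agent.Lib.MP_d2a91d_an.Z1_79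

/-!
The exact generic dimension of trivariate spline spaces, for all `k` in the range of the question,
on partitions whose interior edges can be peeled, first globally and then at every vertex
separately, down to matched cores.
-/

namespace Pool.Agent.Results.MP_d2a91d_an.LocalFormula

open Pool.Agent.Lib.MP_d2a91d_an

/-- Let `K` be a tetrahedral partition (with the regularity conditions `Nice`), let
`k = d + r + 1` with `6 * r ≤ d` (so `k ≥ 7 * r + 1`; this contains the range `k ≥ 8 * r + 1` of
the question). Let the set of all interior edges peel to `A` (see `Peels`), and for every vertex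
`v` let the set of the edges of `A` at `v` peel to a set `C v` in which every edge has at most one
neighbour (an edge of `C v` in a common triangle). Suppose also that

* every edge of `A` lies in at least two triangles without another edge of `A`, or
* for every edge `e` of `A` and every endpoint `v` of `e`, at most one other edge of `A` contains
  `v` and shares a triangle of `K` with `e`.

Then the dimension of `S_k^r` at every realisation without coplanar triangles at an interior edge,
and also the generic dimension, is equal to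
`C(k + 3, 3) + (number of interior triangles) * C(d + 3, 3) - ∑ lam (deg e)
  + ∑ v, ∑ mu (deg e) (deg e')`, the first sum over the interior edges `e`, the last one over the
pairs `{e, e'}` of neighbours in `C v`. (In the statement everything is doubled, so that the last
sum runs over the ordered pairs.) -/
theorem result {N : ℕ} (K : Finset (Finset (Fin N)))
    (cyc : Finset (Fin N) → ℕ → Finset (Fin N)) (hne : K.Nonempty) (hK : Nice K cyc)
    (r d : ℕ) (hd : 6 * r ≤ d) (A : Finset (Finset (Fin N)))
    (hA : Peels K r (interiorFaces K 2) A)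
    (C : Fin N → Finset (Finset (Fin N)))
    (hC : ∀ v, Peels K r (A.filter (fun e => v ∈ e)) (C v))
    (hC1 : ∀ v, ∀ e ∈ C v, (partnersIn K (C v) e).card ≤ 1)
    (hfree : (∀ e ∈ A, 2 ≤
        ((faces K 3).filter (fun f => e ⊆ f ∧ ∀ e' ∈ A, e' ⊆ f → e' = e)).card) ∨
      (∀ e ∈ A, ∀ v ∈ e, ((partnersIn K A e).filter (fun e' => v ∈ e')).card ≤ 1)) :
    (∀ p, Realises K p →
      (∀ e ∈ interiorFaces K 2, ∀ f ∈ faces K 3, ∀ g ∈ faces K 3, e ⊆ f → e ⊆ g → f ≠ g →
        AffineIndependent ℝ (fun i : (f ∪ g : Finset (Fin N)) => p i)) →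
      2 * (Module.finrank ℝ (Spline r (d + r + 1) K p) +
        ∑ e ∈ interiorFaces K 2, lam (degree K e) r d) =
      2 * ((d + r + 4).choose 3 + (interiorFaces K 3).card * (d + 3).choose 3) +
        ∑ v : Fin N, ∑ e ∈ C v, ∑ e' ∈ partnersIn K (C v) e,
          mu (degree K e) (degree K e') r d) ∧
    ((∃ p, Realises K p) →
      2 * (genDim r (d + r + 1) K + ∑ e ∈ interiorFaces K 2, lam (degree K e) r d) =
      2 * ((d + r + 4).choose 3 + (interiorFaces K 3).card * (d + 3).choose 3) +
        ∑ v : Fin N, ∑ e ∈ C v, ∑ e' ∈ partnersIn K (C v) e,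
          mu (degree K e) (degree K e') r d) := by
  obtain ⟨hAs, lv, hlv⟩ := hA
  choose hCs lvl hlvl using hC
  have R : Loc.Rows := ⟨K79.stK_79, K379.stK3_79, stTL_42, stF_83, stF3_83, stR1_42,
    stLP_95 Z79.stZ1_79, stZ2_42, Z79.stZ1_79⟩
  have key : (∀ t ∈ K, t.card = 4) → Loc.Hyp K A r lv C lvl := by
    intro hcard
    refine ⟨hAs, hlv, ?_, hCs, hC1, hlvl⟩
    rcases hfree with h | h
    · exact Loc.FF_of_two h
    · exact Loc.FF_of_chain hcard hK hAs h
        (Chain.no_three stX_83 hcard hK hAs h lv r hlv)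
  refine ⟨fun p hp hdist => Loc.pos_loc R (key hp.card) hne hK hd hp hdist, fun h => ?_⟩
  obtain ⟨p, hp⟩ := h
  exact Loc.gen_loc U4a_32.stU4a_32 U4b_83.stU4b_83 R (key hp.card) hne hK hd ⟨p, hp⟩

end Pool.Agent.Results.MP_d2a91d_an.LocalFormula
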