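import Pool.Agent.Lib.MP_d2a91d_an.Peel2
import Pool.Agent.Lib.MP_d2a91d_an.U4as_32
import Pool.Agent.Lib.MP_d2a91d_an.U4b_83
import Pool.Agent.Lib.MP_d2a91d_an.Z1_79
import Pool.Agent.Lib.MP_d2a91d_an.Z2_42

/-!
The exact generic dimension of trivariate spline spaces on partitions whose interior edges can be
peeled down to a matched core.
-/

namespace Pool.Agent.Results.MP_d2a91d_an.PeelFormula

open Pool.Agent.Lib.MP_d2a91d_an

/-- Let `K` be a tetrahedral partition (with the regularity conditions `Nice`), let
`k = d + r + 1`, and let `A` be a set of interior edges such that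

* every edge of `A` shares a triangle of `K` with at most one other edge of `A`;
* every interior edge `e` outside `A` lies in at least `min (r + 2) (deg e)` triangles whose other
  interior edges are not in `A` and have a smaller level `lv` than `e`.

Then the dimension of `S_k^r` at every realisation without coplanar triangles at an interior edge,
and also the generic dimension, is equal to
`C(k + 3, 3) + (number of interior triangles) * C(d + 3, 3) - ∑ lam (deg e)
  + ∑ mu (deg e) (deg e')`, the first sum over the interior edges `e`, the second one over the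
pairs `{e, e'}` of edges of `A` in a common triangle. (In the statement everything is doubled, so
that the second sum runs over the ordered pairs.) -/
theorem result {N : ℕ} (K : Finset (Finset (Fin N)))
    (cyc : Finset (Fin N) → ℕ → Finset (Fin N)) (hne : K.Nonempty) (hK : Nice K cyc)
    (r d : ℕ) (A : Finset (Finset (Fin N))) (hA : A ⊆ interiorFaces K 2)
    (hA1 : ∀ e ∈ A, (partnersIn K A e).card ≤ 1) (lv : Finset (Fin N) → ℕ)
    (hlv : ∀ e ∈ interiorFaces K 2, e ∉ A → min (r + 2) (degree K e) ≤
      ((faces K 3).filter (fun f => e ⊆ f ∧ ∀ e' ∈ interiorFaces K 2, e' ⊆ f → e' = e ∨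
        (e' ∉ A ∧ lv e' < lv e))).card) :
    (∀ p, Realises K p →
      (∀ e ∈ interiorFaces K 2, ∀ f ∈ faces K 3, ∀ g ∈ faces K 3, e ⊆ f → e ⊆ g → f ≠ g →
        AffineIndependent ℝ (fun i : (f ∪ g : Finset (Fin N)) => p i)) →
      2 * (Module.finrank ℝ (Spline r (d + r + 1) K p) +
        ∑ e ∈ interiorFaces K 2, lam (degree K e) r d) =
      2 * ((d + r + 4).choose 3 + (interiorFaces K 3).card * (d + 3).choose 3) +
        ∑ e ∈ A, ∑ e' ∈ partnersIn K A e, mu (degree K e) (degree K e') r d) ∧
    ((∃ p, Realises K p) →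
      2 * (genDim r (d + r + 1) K + ∑ e ∈ interiorFaces K 2, lam (degree K e) r d) =
      2 * ((d + r + 4).choose 3 + (interiorFaces K 3).card * (d + 3).choose 3) +
        ∑ e ∈ A, ∑ e' ∈ partnersIn K A e, mu (degree K e) (degree K e') r d) :=
  ⟨fun _ hp hd => pos_core Z79.stZ1_79 stZ2_42 hne hK hA hA1 lv r d hlv hp hd,
    gen_core U4a_32.stU4a_32 U4b_83.stU4b_83 Z79.stZ1_79 stZ2_42 hne hK hA hA1 lv r d hlv⟩

end Pool.Agent.Results.MP_d2a91d_an.PeelFormula
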