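import Pool.Agent.Lib.MP_d2a91d_an.Pair

/-!
The generic dimension of trivariate spline spaces of smoothness `r ≥ 2` is not determined by the
numbers of faces and the numbers of tetrahedra around the vertices and edges.
-/

namespace Pool.Agent.Results.MP_d2a91d_an.VertexData

open Pool.Agent.Lib.MP_d2a91d_an

/-- `KV` and `KW` are two partitions with 9 vertices and 8 tetrahedra, realisable in `ℝ ^ 3`. They
have equally many faces and equally many interior faces of every dimension, and the same multiset
of vertex data: the number of tetrahedra at the vertex and, for every edge at it, whether the edge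
is interior and in how many tetrahedra it lies. But for every `r ≥ 2` and every `k ≥ r + 1` the
generic dimension of the spline space `S_k^r` of `KV` is smaller than that of `KW`. -/
theorem result :
    (∃ p, Realises KV p) ∧ (∃ p, Realises KW p) ∧
    (∀ m ≤ 4, (faces KV m).card = (faces KW m).card ∧
      (interiorFaces KV m).card = (interiorFaces KW m).card) ∧
    Finset.univ.val.map (vertexData KV) = Finset.univ.val.map (vertexData KW) ∧
    ∀ r k : ℕ, 2 ≤ r → r + 1 ≤ k → genDim r k KV < genDim r k KW :=
  ⟨⟨_, realV⟩, ⟨_, realW⟩, cardsVW, dataVW, pair_lt⟩

end Pool.Agent.Results.MP_d2a91d_an.VertexData
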